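import Mathlib
import Pool.Agent.E8helper99.CodegGraph

/-!
# The codegree Turan density of the complete 6-graph on seven vertices exceeds one half

We prove that the codegree Turan density of the complete 6-graph on 7 vertices is at least `19/32`.
So the answer to the question whether the codegree Turan density of the complete `k`-graph on
`k + 1` vertices is `1/2` for every `k ≥ 2` is negative.

The construction: take a uniformly random graph on the vertex set and let a 6-set be an edge of the
6-graph if the graph it induces belongs to a fixed family of 73 of the 156 isomorphism types of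
graphs on six vertices.  The family is such that every graph on seven vertices has a vertex-deleted
subgraph outside it (so that no seven vertices span a complete 6-graph), while every graph on five
vertices has at least 19 of its 32 one-vertex extensions in it.
-/

namespace Pool.Agent.Results.MP_af2786_co.SixCodegreeH99

open Filter

/-- A `k`-graph on the vertex set `V`: a set of edges, each of which is a set of `k` vertices. -/
structure KGraph (k : ℕ) (V : Type) where
  /-- The edges. -/
  edges : Set (Finset V)
  /-- Every edge has exactly `k` vertices. -/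
  card_edge : ∀ e ∈ edges, e.card = k

/-- `H` contains a copy of `F`: some injection of the vertices of `F` into the vertices of `H`
sends every edge of `F` to an edge of `H`. -/
def ContainsCopy {k : ℕ} {V W : Type} (H : KGraph k V) (F : KGraph k W) : Prop :=
  ∃ f : W ↪ V, ∀ e ∈ F.edges, e.map f ∈ H.edges

/-- The complete `k`-graph on `m` vertices: all `k`-subsets of the `m` vertices are edges. -/
def complete (k m : ℕ) : KGraph k (Fin m) where
  edges := {e | e.card = k}
  card_edge := fun _ h => h

/-- The codegree of `T` in the `k`-graph `H` on `n` vertices: the number of vertices `v ∉ T` such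
that `T ∪ {v}` is an edge of `H`. -/
noncomputable def codegree {k n : ℕ} (H : KGraph k (Fin n)) (T : Finset (Fin n)) : ℕ :=
  {v : Fin n | v ∉ T ∧ insert v T ∈ H.edges}.ncard

/-- The minimum codegree of `H`: the minimum of the codegree of `T` over all sets `T` of `k - 1`
vertices. -/
noncomputable def minCodegree {k n : ℕ} (H : KGraph k (Fin n)) : ℕ :=
  sInf {d | ∃ T : Finset (Fin n), T.card = k - 1 ∧ d = codegree H T}

/-- The codegree Turan number: the largest minimum codegree of an `F`-free `k`-graph on `n`
vertices. -/
noncomputable def exCodegree {k m : ℕ} (n : ℕ) (F : KGraph k (Fin m)) : ℕ :=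
  sSup {d | ∃ H : KGraph k (Fin n), ¬ ContainsCopy H F ∧ d = minCodegree H}

/-- The codegree Turan density of `F`. -/
noncomputable def codegreeDensity {k m : ℕ} (F : KGraph k (Fin m)) : ℝ :=
  limsup (fun n : ℕ => (exCodegree n F : ℝ) / n) atTop

theorem codegree_le {k n : ℕ} (H : KGraph k (Fin n)) (T : Finset (Fin n)) :
    codegree H T ≤ n := by
  unfold codegree
  calc _ ≤ (Set.univ : Set (Fin n)).ncard := Set.ncard_le_ncard (Set.subset_univ _)
    _ = n := by rw [Set.ncard_univ, Nat.card_eq_fintype_card, Fintype.card_fin]

theorem minCodegree_le {k n : ℕ} (H : KGraph k (Fin n)) : minCodegree H ≤ n := by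
  unfold minCodegree
  rcases Set.eq_empty_or_nonempty
    {d | ∃ T : Finset (Fin n), T.card = k - 1 ∧ d = codegree H T} with h | h
  · rw [h, Nat.sInf_empty]
    exact Nat.zero_le _
  · obtain ⟨T, -, hT⟩ := Nat.sInf_mem h
    rw [hT]
    exact codegree_le H T

theorem bddAbove_set {k m : ℕ} (n : ℕ) (F : KGraph k (Fin m)) :
    BddAbove {d | ∃ H : KGraph k (Fin n), ¬ ContainsCopy H F ∧ d = minCodegree H} := by
  refine ⟨n, ?_⟩
  rintro d ⟨H, -, rfl⟩
  exact minCodegree_le H

theorem exCodegree_le {k m : ℕ} (n : ℕ) (F : KGraph k (Fin m)) : exCodegree n F ≤ n := by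
  unfold exCodegree
  rcases Set.eq_empty_or_nonempty
    {d | ∃ H : KGraph k (Fin n), ¬ ContainsCopy H F ∧ d = minCodegree H} with h | h
  · rw [h, csSup_empty]
    exact Nat.zero_le _
  · obtain ⟨H, -, hH⟩ := Nat.sSup_mem h (bddAbove_set n F)
    rw [hH]
    exact minCodegree_le H

theorem isBoundedUnder_ratio {k m : ℕ} (F : KGraph k (Fin m)) :
    IsBoundedUnder (· ≤ ·) atTop (fun n : ℕ => (exCodegree n F : ℝ) / n) := by
  refine isBoundedUnder_of ⟨1, fun n => ?_⟩
  have h : (exCodegree n F : ℝ) ≤ n := by exact_mod_cast exCodegree_le n F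
  rcases Nat.eq_zero_or_pos n with rfl | hn
  · simp
  · rw [div_le_one (by exact_mod_cast hn)]
    exact h

/-- The 6-graph defined by a graph through the table rule. -/
def sixGraph {n : ℕ} (a : Fin n → Fin n → Bool) : KGraph 6 (Fin n) where
  edges := {S | E8helper99.Codeg.IsEdge a S}
  card_edge := fun _ h => h.1

theorem sixGraph_free {n : ℕ} (a : Fin n → Fin n → Bool) :
    ¬ ContainsCopy (sixGraph a) (complete 6 7) := by
  rintro ⟨f, hf⟩
  obtain ⟨S, hSU, hS, hne⟩ := E8helper99.Codeg.exists_nonedge a
    ((Finset.univ : Finset (Fin 7)).map f) (by simp)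
  apply hne
  obtain ⟨e, -, rfl⟩ := Finset.subset_map_iff.1 hSU
  exact hf e (by rw [Finset.card_map] at hS; exact hS)

theorem codegree_sixGraph {n : ℕ} (ω : Fin n → Fin n → Bool) (T : Finset (Fin n)) :
    codegree (sixGraph (E8helper99.Codeg.adj ω)) T = E8helper99.Codeg.cdeg ω T := by
  unfold codegree E8helper99.Codeg.cdeg
  rw [← Set.ncard_coe_finset]
  congr 1
  ext v
  simp [sixGraph]

theorem le_codegreeDensity {s : ℝ} (hs : s < 19 / 32) :
    s ≤ codegreeDensity (complete 6 7) := by
  unfold codegreeDensity
  refine le_limsup_of_frequently_le (Eventually.frequently ?_) (isBoundedUnder_ratio _)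
  filter_upwards [E8helper99.Codeg.exists_large_codegree hs, eventually_ge_atTop 5] with n hn hn5
  obtain ⟨ω, hω⟩ := hn
  have hn0 : (0 : ℝ) < n := by
    have : (5 : ℝ) ≤ n := by exact_mod_cast hn5
    linarith
  rw [le_div_iff₀ hn0]
  have h1 : s * n ≤ (minCodegree (sixGraph (E8helper99.Codeg.adj ω)) : ℝ) := by
    have hne : {d | ∃ T : Finset (Fin n), T.card = 6 - 1 ∧
        d = codegree (sixGraph (E8helper99.Codeg.adj ω)) T}.Nonempty := by
      obtain ⟨T, -, hT⟩ := Finset.exists_subset_card_eq
        (show 5 ≤ (Finset.univ : Finset (Fin n)).card by simpa using hn5)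
      exact ⟨_, T, by simpa using hT, rfl⟩
    obtain ⟨T, hT, hd⟩ := Nat.sInf_mem hne
    unfold minCodegree
    rw [hd, codegree_sixGraph]
    exact (hω T (by simpa using hT)).le
  have h2 : minCodegree (sixGraph (E8helper99.Codeg.adj ω)) ≤ exCodegree n (complete 6 7) :=
    le_csSup (bddAbove_set n _) ⟨_, sixGraph_free _, rfl⟩
  have h3 : (minCodegree (sixGraph (E8helper99.Codeg.adj ω)) : ℝ) ≤
      exCodegree n (complete 6 7) := by exact_mod_cast h2
  exact h1.trans h3

/-- The codegree Turan density of the complete 6-graph on seven vertices is at least `19/32`. In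
particular it is larger than `1/2`, so it is not true that the codegree Turan density of the
complete `k`-graph on `k + 1` vertices is `1/2` for every `k ≥ 2` (see `not_forall_eq_half`). -/
theorem result : (19 / 32 : ℝ) ≤ codegreeDensity (complete 6 7) :=
  le_of_forall_lt (fun _ hs => by
    obtain ⟨t, hst, ht⟩ := exists_between hs
    exact hst.trans_le (le_codegreeDensity ht))

/-- The question of the problem has a negative answer. -/
theorem not_forall_eq_half :
    ¬ ∀ k : ℕ, 2 ≤ k → codegreeDensity (complete k (k + 1)) = 1 / 2 := by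
  intro hall
  have h := result
  rw [hall 6 (by norm_num)] at h
  norm_num at h

end Pool.Agent.Results.MP_af2786_co.SixCodegreeH99
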